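import Pool.Agent.Helper88.IwMain

open Polynomial

namespace Pool.Agent.Results.MP_1d703b_an.IntertwiningChain

/-- Semi-conjugacy `P ≥ Q`: there is a non-constant polynomial `p` with `p ∘ P = Q ∘ p`. -/
def SemiConjTo {K : Type*} [Field K] (P Q : K[X]) : Prop :=
  ∃ p : K[X], 1 ≤ p.natDegree ∧ p.comp P = Q.comp p

/-- `P` and `Q` are intertwined, `P ≈ Q`: there are a polynomial `R` and an integer `n ≥ 1` with
`R ≥ P^n` and `R ≥ Q^n`, where `P^n` is the `n`-th iterate of `P` under composition. -/
def Intertwined {K : Type*} [Field K] (P Q : K[X]) : Prop :=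
  ∃ (R : K[X]) (n : ℕ), 1 ≤ n ∧ SemiConjTo R (P.comp^[n] X) ∧ SemiConjTo R (Q.comp^[n] X)

/-- There is a finite strict-intertwining chain of polynomials of degree `d` from `P` to `Q`:
polynomials `P = s 0, s 1, ..., s N = Q` and `f 0, ..., f (N - 1)`, all of degree `d`, with
`f i ≥ s i` and `f i ≥ s (i + 1)` for every `i < N`. -/
def HasChain {K : Type*} [Field K] (d : ℕ) (P Q : K[X]) : Prop :=
  ∃ (N : ℕ) (s f : ℕ → K[X]), s 0 = P ∧ s N = Q ∧ (∀ i ≤ N, (s i).natDegree = d) ∧
    ∀ i < N, (f i).natDegree = d ∧ SemiConjTo (f i) (s i) ∧ SemiConjTo (f i) (s (i + 1))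

theorem semi_iff {K : Type*} [Field K] (P Q : K[X]) : Iw.Semi P Q ↔ SemiConjTo P Q := by
  unfold Iw.Semi SemiConjTo
  simp only [Nat.one_le_iff_ne_zero]

theorem hasChain_of_chain {K : Type*} [Field K] {d : ℕ} {P Q : K[X]} (hQ : Q.natDegree = d)
    (h : Iw.Chain P Q) : HasChain d P Q := by
  unfold Iw.Chain at h
  induction h using Relation.ReflTransGen.head_induction_on with
  | refl =>
    refine ⟨0, fun _ => Q, fun _ => Q, rfl, rfl, fun i _ => hQ, fun i hi => ?_⟩
    exact absurd hi (Nat.not_lt_zero i)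
  | @head A B hAB _ ih =>
    obtain ⟨N, s, f, hs0, hsN, hsd, hf⟩ := ih
    obtain ⟨R, hRA, hRB⟩ := hAB
    have hB : B.natDegree = d := by rw [← hs0]; exact hsd 0 (Nat.zero_le _)
    have hR : R.natDegree = d := by rw [hRB.natDegree]; exact hB
    have hA : A.natDegree = d := by rw [← hRA.natDegree]; exact hR
    refine ⟨N + 1, fun i => Nat.casesOn i A s, fun i => Nat.casesOn i R f, rfl, hsN, ?_, ?_⟩
    · intro i hi
      cases i with
      | zero => exact hA
      | succ i => exact hsd i (by omega)
    · intro i hi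
      cases i with
      | zero =>
        refine ⟨hR, (semi_iff _ _).mp hRA, ?_⟩
        have : SemiConjTo R (s 0) := by rw [hs0]; exact (semi_iff _ _).mp hRB
        exact this
      | succ i => exact hf i (by omega)

/-- **Intertwined polynomials are joined by a strict-intertwining chain.** Over an algebraically
closed field of characteristic zero, if two polynomials `P`, `Q` of the same degree `d ≥ 2` are
intertwined, then there is a finite strict-intertwining chain from `P` to `Q`. -/
theorem result (K : Type*) [Field K] [IsAlgClosed K] [CharZero K] (d : ℕ) (hd : 2 ≤ d)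
    (P Q : K[X]) (hP : P.natDegree = d) (hQ : Q.natDegree = d) (h : Intertwined P Q) :
    HasChain d P Q := by
  obtain ⟨R, n, hn, h1, h2⟩ := h
  apply hasChain_of_chain hQ
  exact Iw.main (by omega) (by omega) (by omega) ((semi_iff _ _).mpr h1) ((semi_iff _ _).mpr h2)

end Pool.Agent.Results.MP_1d703b_an.IntertwiningChain
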